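import Pool.Agent.Helper2.LD.St2b
import Pool.Agent.Helper2.LD.St1b

/-!
# LD project: basic sorts in the full graph (module Is1)
-/

set_option autoImplicit false

namespace Pool.Agent.Helper44.LD

open Pool.Agent.Helper2.LD

section Names

variable {K : Type}

theorem adj_root {g : Fb K} : Fb.adj Fb.root g ↔ ∃ κ c, g = Fb.a1 κ c := by
  cases g <;> simp [Fb.adj, Fb.par]
  split_ifs <;> simp

theorem adj_a1 {κ : K} {c : Bool} {g : Fb K} : Fb.adj (Fb.a1 κ c) g ↔
    g = Fb.root ∨ g = Fb.a2 κ c ∨ ∃ i j, j ≤ 1 ∧ g = Fb.mk κ c i j := by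
  cases g with
  | mk κ' c' i j =>
    simp only [Fb.adj, Fb.par]
    split_ifs with h
    · simp only [ne_eq, reduceCtorEq, not_false_eq_true, true_and, false_or, and_false,
        Fb.a1.injEq, Fb.mk.injEq]
      constructor
      · rintro ⟨rfl, rfl⟩
        exact ⟨i, j, h, rfl, rfl, rfl, rfl⟩
      · rintro ⟨i', j', h', rfl, rfl, rfl, rfl⟩
        exact ⟨rfl, rfl⟩
    · simp only [ne_eq, reduceCtorEq, not_false_eq_true, and_false, false_or,
        Fb.mk.injEq, false_iff]
      rintro ⟨i', j', h', rfl, rfl, rfl, rfl⟩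
      exact h h'
  | _ => simp [Fb.adj, Fb.par, eq_comm]

theorem adj_a2 {κ : K} {c : Bool} {g : Fb K} : Fb.adj (Fb.a2 κ c) g ↔
    g = Fb.a1 κ c ∨ g = Fb.r κ c := by
  cases g with
  | mk κ' c' i j =>
    simp only [Fb.adj, Fb.par]
    split_ifs <;> simp
  | _ => simp [Fb.adj, Fb.par, eq_comm]

theorem adj_r {κ : K} {c : Bool} {g : Fb K} : Fb.adj (Fb.r κ c) g ↔
    g = Fb.a2 κ c ∨ ∃ i, g = Fb.lf κ c i := by
  cases g with
  | mk κ' c' i j =>
    simp only [Fb.adj, Fb.par]
    split_ifs <;> simp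
  | _ => simp [Fb.adj, Fb.par, eq_comm]

theorem adj_lf {κ : K} {c : Bool} {i : ℕ} {g : Fb K} : Fb.adj (Fb.lf κ c i) g ↔
    g = Fb.r κ c := by
  cases g with
  | mk κ' c' i j =>
    simp only [Fb.adj, Fb.par]
    split_ifs <;> simp
  | _ => simp [Fb.adj, Fb.par]

theorem adj_mk {κ : K} {c : Bool} {i j : ℕ} (hj : 1 ≤ j) {g : Fb K} :
    Fb.adj (Fb.mk κ c i j) g ↔
    (g = Fb.mk κ c i (j + 1)) ∨ (j = 1 ∧ g = Fb.a1 κ c) ∨ (1 < j ∧ g = Fb.mk κ c i (j - 1)) := by
  constructor
  · rintro (⟨_, h⟩ | ⟨_, h⟩)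
    · simp only [Fb.par] at h
      split_ifs at h with h1
      · right; left
        exact ⟨by omega, h⟩
      · right; right
        exact ⟨by omega, h⟩
    · left
      cases g with
      | mk κ' c' i' j' =>
        simp only [Fb.par] at h
        split_ifs at h with h1
        rw [Fb.mk.injEq] at h
        obtain ⟨rfl, rfl, rfl, rfl⟩ := h
        rw [Fb.mk.injEq]
        exact ⟨rfl, rfl, rfl, by omega⟩
      | _ => simp [Fb.par] at h
  · rintro (rfl | ⟨rfl, rfl⟩ | ⟨h, rfl⟩)
    · right
      refine ⟨by simp, ?_⟩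
      simp only [Fb.par]
      rw [if_neg (by omega)]
      rfl
    · left
      exact ⟨by simp, by simp [Fb.par]⟩
    · left
      refine ⟨by simp, ?_⟩
      simp only [Fb.par]
      rw [if_neg (by omega)]

end Names

section Graph

variable {K V : Type} {k : ℕ} {C : KCode k K} {S : SimpleGraph V} {lab : V → Finset K}

theorem full_adj {u v : FullV k C lab} : (full k C S lab).Adj u v ↔
    ((brG K S (HH k)).Adj (own u) (own v) ∧ fb u = Fb.root ∧ fb v = Fb.root) ∨
      (own u = own v ∧ Fb.adj (fb u) (fb v)) := Iff.rfl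

theorem fb_ok (u : FullV k C lab) : Fb.ok (MM k) C.code (brL lab (own u)) (fb u) := u.2

theorem ext' {u v : FullV k C lab} (h1 : own u = own v) (h2 : fb u = fb v) : u = v :=
  Subtype.ext (Prod.ext h1 h2)

/-- the vertex with a given owner and name -/
def mkv (x : BrV K V (HH k)) (f : Fb K) (h : Fb.ok (MM k) C.code (brL lab x) f) :
    FullV k C lab := ⟨(x, f), h⟩

theorem full_adj_of_ne {u v : FullV k C lab} (h : fb u ≠ Fb.root) :
    (full k C S lab).Adj u v ↔ own u = own v ∧ Fb.adj (fb u) (fb v) := by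
  rw [full_adj]
  tauto

theorem full_adj_of_ne' {u v : FullV k C lab} (h : fb v ≠ Fb.root) :
    (full k C S lab).Adj u v ↔ own u = own v ∧ Fb.adj (fb u) (fb v) := by
  rw [full_adj]
  tauto

theorem mk_ok {u : FullV k C lab} {κ : K} {c : Bool} {i j : ℕ} (h : fb u = Fb.mk κ c i j) :
    i ∈ C.code κ ∧ 1 ≤ j ∧ j ≤ i := by
  have := fb_ok u
  rw [h] at this
  exact this

theorem leaf_deg {W : Type} (G : SimpleGraph W) (v : W) :
    Leaf G v ↔ DegGe G 1 v ∧ ¬ DegGe G 2 v := by
  classical
  constructor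
  · rintro ⟨u, hu, hw⟩
    refine ⟨⟨{u}, by simp, by simpa using hu⟩, ?_⟩
    rintro ⟨s, hs, h⟩
    obtain ⟨a, b, hab, rfl⟩ := Finset.card_eq_two.1 hs
    exact hab ((hw a (h a (by simp))).trans (hw b (h b (by simp))).symm)
  · rintro ⟨⟨s, hs, h⟩, h2⟩
    obtain ⟨u, rfl⟩ := Finset.card_eq_one.1 hs
    refine ⟨u, h u (by simp), fun w hw => ?_⟩
    by_contra hne
    apply h2
    refine ⟨{w, u}, Finset.card_pair hne, ?_⟩
    intro x hx
    rw [Finset.mem_insert, Finset.mem_singleton] at hx
    rcases hx with rfl | rfl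
    · exact hw
    · exact h _ (by simp)

theorem pIs1 (hD : StDegF) : StIs1 := by
  intro K V _ _ k hk hK C S lab
  classical
  have hm : 36 ≤ MM k := by unfold MM; omega
  -- leaves
  have hleaf : ∀ v : FullV k C lab, Leaf (full k C S lab) v ↔
      ((∃ κ c i, fb v = Fb.lf κ c i) ∨ ∃ κ c i, fb v = Fb.mk κ c i i) := by
    intro v
    rw [leaf_deg]
    by_cases hv : fb v = Fb.root
    · have h2 := (hD k hk hK C S lab v).1 hv 2 (by omega)
      simp [h2, hv]
    · have h1 := (hD k hk hK C S lab v).2 hv 1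
      have h2 := (hD k hk hK C S lab v).2 hv 2
      rw [h1, h2]
      cases h : fb v with
      | root => exact absurd h hv
      | a1 κ c => simp [fdeg]
      | a2 κ c => simp [fdeg]
      | r κ c =>
        simp only [fdeg]
        constructor
        · rintro ⟨_, h3⟩
          split_ifs at h3 <;> omega
        · rintro (⟨_, _, _, h3⟩ | ⟨_, _, _, h3⟩) <;> simp at h3
      | lf κ c i => simp [fdeg]
      | mk κ c i j =>
        have hok := mk_ok h
        simp only [fdeg]
        constructor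
        · rintro ⟨_, h3⟩
          split_ifs at h3 with h4
          · omega
          · right
            refine ⟨κ, c, i, ?_⟩
            rw [Fb.mk.injEq]
            exact ⟨rfl, rfl, rfl, by omega⟩
        · rintro (⟨_, _, _, h3⟩ | ⟨_, _, _, h3⟩)
          · simp at h3
          · rw [Fb.mk.injEq] at h3
            obtain ⟨_, _, h5, h6⟩ := h3
            rw [if_neg (by omega)]
            omega
  -- `r`
  have hr : ∀ v : FullV k C lab, Rv (full k C S lab) v ↔ ∃ κ c, fb v = Fb.r κ c := by
    intro v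
    constructor
    · rintro ⟨s, hs, h⟩
      obtain ⟨a, b, d, hab, had, hbd, rfl⟩ := Finset.card_eq_three.1 hs
      have ha := h a (by simp)
      have hb := h b (by simp)
      cases hv : fb v with
      | root =>
        exfalso
        obtain ⟨h1, h2⟩ := ha
        rw [hleaf] at h2
        rw [full_adj] at h1
        rcases h1 with ⟨_, _, h3⟩ | ⟨_, h3⟩
        · rw [h3] at h2
          simp at h2
        · rw [hv, adj_root] at h3
          obtain ⟨κ, c, h3⟩ := h3
          rw [h3] at h2
          simp at h2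
      | a1 κ c =>
        exfalso
        obtain ⟨h1, h2⟩ := ha
        rw [full_adj_of_ne (by rw [hv]; simp), hv, adj_a1] at h1
        rw [hleaf] at h2
        rcases h1 with ⟨_, h3 | h3 | ⟨i, j, hj, h3⟩⟩
        · rw [h3] at h2
          simp at h2
        · rw [h3] at h2
          simp at h2
        · have h4 := mk_ok h3
          have h5 := (C.rng κ i h4.1).1
          rcases h2 with ⟨_, _, _, h2⟩ | ⟨_, _, _, h2⟩
          · rw [h3] at h2
            simp at h2
          · rw [h3, Fb.mk.injEq] at h2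
            omega
      | a2 κ c =>
        exfalso
        obtain ⟨h1, h2⟩ := ha
        rw [full_adj_of_ne (by rw [hv]; simp), hv, adj_a2] at h1
        rw [hleaf] at h2
        rcases h1 with ⟨_, h3 | h3⟩ <;>
        · rw [h3] at h2
          simp at h2
      | r κ c => exact ⟨κ, c, rfl⟩
      | lf κ c i =>
        exfalso
        obtain ⟨h1, h2⟩ := ha
        rw [full_adj_of_ne (by rw [hv]; simp), hv, adj_lf] at h1
        rw [hleaf, h1.2] at h2
        simp at h2
      | mk κ c i j =>
        exfalso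
        have hj := (mk_ok hv).2.1
        have key : ∀ x, (full k C S lab).Adj v x → Leaf (full k C S lab) x →
            own x = own v ∧ fb x = Fb.mk κ c i (j + 1) := by
          intro x h1 h2
          rw [full_adj_of_ne (by rw [hv]; simp), hv, adj_mk hj] at h1
          rw [hleaf] at h2
          rcases h1 with ⟨h0, h3 | ⟨_, h3⟩ | ⟨h5, h3⟩⟩
          · exact ⟨h0.symm, h3⟩
          · rw [h3] at h2
            simp at h2
          · rcases h2 with ⟨_, _, _, h2⟩ | ⟨_, _, _, h2⟩
            · rw [h3] at h2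
              simp at h2
            · rw [h3, Fb.mk.injEq] at h2
              have := (mk_ok hv).2.2
              omega
        have h1 := key a ha.1 ha.2
        have h2 := key b hb.1 hb.2
        exact hab (ext' (h1.1.trans h2.1.symm) (h1.2.trans h2.2.symm))
    · rintro ⟨κ, c, hv⟩
      have ok : ∀ i, i < 3 → Fb.ok (MM k) C.code (brL lab (own v)) (Fb.lf κ c i) := by
        intro i hi
        left
        omega
      let x : (i : ℕ) → i < 3 → FullV k C lab := fun i hi => mkv (own v) (Fb.lf κ c i) (ok i hi)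
      have hx : ∀ i hi, (full k C S lab).Adj v (x i hi) ∧ Leaf (full k C S lab) (x i hi) := by
        intro i hi
        constructor
        · rw [full_adj_of_ne (by rw [hv]; simp), hv, adj_r]
          exact ⟨rfl, Or.inr ⟨i, rfl⟩⟩
        · rw [hleaf]
          exact Or.inl ⟨κ, c, i, rfl⟩
      have hne : ∀ i hi j hj, i ≠ j → x i hi ≠ x j hj := by
        intro i hi j hj hij h
        have h1 : fb (x i hi) = fb (x j hj) := by rw [h]
        have h2 : (Fb.lf κ c i : Fb K) = Fb.lf κ c j := h1
        rw [Fb.lf.injEq] at h2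
        exact hij h2.2.2
      refine ⟨{x 0 (by omega), x 1 (by omega), x 2 (by omega)}, ?_, ?_⟩
      · rw [Finset.card_eq_three]
        exact ⟨x 0 (by omega), x 1 (by omega), x 2 (by omega),
          hne 0 (by omega) 1 (by omega) (by omega), hne 0 (by omega) 2 (by omega) (by omega),
          hne 1 (by omega) 2 (by omega) (by omega), rfl⟩
      · intro w hw
        rw [Finset.mem_insert, Finset.mem_insert, Finset.mem_singleton] at hw
        rcases hw with rfl | rfl | rfl
        · exact hx 0 (by omega)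
        · exact hx 1 (by omega)
        · exact hx 2 (by omega)
  -- `a2`
  have ha2 : ∀ v : FullV k C lab, A2v (full k C S lab) v ↔ ∃ κ c, fb v = Fb.a2 κ c := by
    intro v
    constructor
    · rintro ⟨h1, u, h2, h3⟩
      rw [hr] at h3
      obtain ⟨κ, c, h3⟩ := h3
      have h2' := h2.symm
      rw [full_adj_of_ne (by rw [h3]; simp), h3, adj_r] at h2'
      rcases h2' with ⟨_, h4 | ⟨i, h4⟩⟩
      · exact ⟨κ, c, h4⟩
      · exact absurd ((hleaf v).2 (Or.inl ⟨κ, c, i, h4⟩)) h1
    · rintro ⟨κ, c, hv⟩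
      refine ⟨?_, mkv (own v) (Fb.r κ c) trivial, ?_, ?_⟩
      · rw [hleaf, hv]
        simp
      · rw [full_adj_of_ne (by rw [hv]; simp), hv, adj_a2]
        exact ⟨rfl, Or.inr rfl⟩
      · rw [hr]
        exact ⟨κ, c, rfl⟩
  -- `a1`
  have ha1 : ∀ v : FullV k C lab, A1v (full k C S lab) v ↔ ∃ κ c, fb v = Fb.a1 κ c := by
    intro v
    constructor
    · rintro ⟨h1, u, h2, h3⟩
      rw [ha2] at h3
      obtain ⟨κ, c, h3⟩ := h3
      have h2' := h2.symm
      rw [full_adj_of_ne (by rw [h3]; simp), h3, adj_a2] at h2'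
      rcases h2' with ⟨_, h4 | h4⟩
      · exact ⟨κ, c, h4⟩
      · exact absurd ((hr v).2 ⟨κ, c, h4⟩) h1
    · rintro ⟨κ, c, hv⟩
      refine ⟨?_, mkv (own v) (Fb.a2 κ c) trivial, ?_, ?_⟩
      · rw [hr, hv]
        simp
      · rw [full_adj_of_ne (by rw [hv]; simp), hv, adj_a1]
        exact ⟨rfl, Or.inr (Or.inl rfl)⟩
      · rw [ha2]
        exact ⟨κ, c, rfl⟩
  intro v
  refine ⟨hleaf v, hr v, ha2 v, ha1 v, ?_⟩
  constructor
  · rintro ⟨h1, h0, u, h2, h3⟩
    rw [ha1] at h3
    obtain ⟨κ, c, h3⟩ := h3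
    have h2' := h2.symm
    rw [full_adj_of_ne (by rw [h3]; simp), h3, adj_a1] at h2'
    rcases h2' with ⟨_, h4 | h4 | ⟨i, j, _, h4⟩⟩
    · exact h4
    · exact absurd ((ha2 v).2 ⟨κ, c, h4⟩) h1
    · exfalso
      rw [(hD k hk hK C S lab v).2 (by rw [h4]; simp) 3, h4] at h0
      simp only [fdeg] at h0
      split_ifs at h0 <;> omega
  · intro hv
    obtain ⟨κ⟩ : Nonempty K := by
      rw [← Fintype.card_pos_iff]
      omega
    refine ⟨?_, (hD k hk hK C S lab v).1 hv 3 (by omega), mkv (own v) (Fb.a1 κ true) trivial, ?_, ?_⟩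
    · rw [ha2, hv]
      simp
    · rw [full_adj, hv, adj_root]
      exact Or.inr ⟨rfl, κ, true, rfl⟩
    · rw [ha1]
      exact ⟨κ, true, rfl⟩

end Graph

end Pool.Agent.Helper44.LD
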