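import Pool.Agent.Helper44.LD.P_Is1

/-!
# LD project: restricted walks in the full graph (module Is2)
-/

set_option autoImplicit false

namespace Pool.Agent.Helper44.LD

open Pool.Agent.Helper2.LD

/-- tree distance from the name `g`, inside one gadget -/
def pot {K : Type} : Fb K → Fb K → ℕ
  | Fb.mk _ _ i' j', Fb.mk _ _ i j => if i = i' then (j - j') + (j' - j) else j + j'
  | Fb.mk _ _ _ j', f => gd f + j'
  | Fb.lf _ _ i0, Fb.lf _ _ i => if i = i0 then 0 else 2
  | Fb.lf _ _ _, Fb.mk _ _ _ j => j + 3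
  | Fb.lf _ _ _, f => 3 - gd f
  | g, Fb.mk _ _ _ j => j + gd g
  | g, f => (gd f - gd g) + (gd g - gd f)

theorem pot_self {K : Type} (g : Fb K) : pot g g = 0 := by
  cases g <;> simp [pot]

theorem gid_adj {K : Type} {f f' : Fb K} (h : Fb.adj f f') (hf : f ≠ Fb.root)
    (hf' : f' ≠ Fb.root) (hj : ∀ κ c i j, f = Fb.mk κ c i j → 1 ≤ j) : f.gid = f'.gid := by
  cases f with
  | root => exact absurd rfl hf
  | a1 κ c =>
    rcases adj_a1.1 h with rfl | rfl | ⟨i, j, _, rfl⟩
    · exact absurd rfl hf'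
    · rfl
    · rfl
  | a2 κ c =>
    rcases adj_a2.1 h with rfl | rfl <;> rfl
  | r κ c =>
    rcases adj_r.1 h with rfl | ⟨i, rfl⟩ <;> rfl
  | lf κ c i =>
    rw [adj_lf] at h
    rw [h]
    rfl
  | mk κ c i j =>
    rcases (adj_mk (hj κ c i j rfl)).1 h with rfl | ⟨_, rfl⟩ | ⟨_, rfl⟩ <;> rfl

theorem pot_adj {K : Type} {g f f' : Fb K} (h : Fb.adj f f') (hg : g ≠ Fb.root)
    (hf : f ≠ Fb.root) (hf' : f' ≠ Fb.root) (hj : ∀ κ c i j, f = Fb.mk κ c i j → 1 ≤ j)
    (hj' : ∀ κ c i j, f' = Fb.mk κ c i j → 1 ≤ j) :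
    pot g f ≤ pot g f' + 1 := by
  cases f with
  | root => exact absurd rfl hf
  | a1 κ c =>
    rcases adj_a1.1 h with rfl | rfl | ⟨i, j, hj1, rfl⟩
    · exact absurd rfl hf'
    · cases g <;> simp [pot, gd] at hg ⊢ <;> omega
    · have := hj' κ c i j rfl
      cases g with
      | mk κ' c' i' j' =>
        simp only [pot, gd]
        split_ifs <;> omega
      | root => exact absurd rfl hg
      | _ => simp only [pot, gd]; omega
  | a2 κ c =>
    rcases adj_a2.1 h with rfl | rfl
    · cases g <;> simp [pot, gd] at hg ⊢ <;> omega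
    · cases g <;> simp [pot, gd] at hg ⊢ <;> omega
  | r κ c =>
    rcases adj_r.1 h with rfl | ⟨i, rfl⟩
    · cases g <;> simp [pot, gd] at hg ⊢ <;> omega
    · cases g with
      | lf κ' c' i' =>
        simp only [pot, gd]
        split_ifs <;> omega
      | root => exact absurd rfl hg
      | _ => simp only [pot, gd]; omega
  | lf κ c i =>
    rw [adj_lf] at h
    subst h
    cases g with
    | lf κ' c' i' =>
      simp only [pot, gd]
      split_ifs <;> omega
    | root => exact absurd rfl hg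
    | _ => simp only [pot, gd]; omega
  | mk κ c i j =>
    have hj1 := hj κ c i j rfl
    rcases (adj_mk hj1).1 h with rfl | ⟨rfl, rfl⟩ | ⟨hj2, rfl⟩
    · cases g with
      | mk κ' c' i' j' =>
        simp only [pot, gd]
        split_ifs <;> omega
      | root => exact absurd rfl hg
      | _ => simp only [pot, gd]; omega
    · cases g with
      | mk κ' c' i' j' =>
        simp only [pot, gd]
        split_ifs <;> omega
      | root => exact absurd rfl hg
      | _ => simp only [pot, gd]; omega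
    · cases g with
      | mk κ' c' i' j' =>
        simp only [pot, gd]
        split_ifs <;> omega
      | root => exact absurd rfl hg
      | _ => simp only [pot, gd]; omega

section RWs

variable {V : Type} (G : SimpleGraph V)

theorem rw_refl (n : ℕ) (u : V) : RW G n u u := by
  cases n with
  | zero => rfl
  | succ n => exact Or.inl rfl

theorem rw_succ : ∀ (n : ℕ) (u v : V), RW G n u v → RW G (n + 1) u v
  | 0, u, v, h => Or.inl h
  | n + 1, u, v, h => by
      rcases h with h | ⟨w, h1, h2⟩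
      · exact Or.inl h
      · refine Or.inr ⟨w, h1, ?_⟩
        rcases h2 with h2 | ⟨h2, h3⟩
        · exact Or.inl h2
        · exact Or.inr ⟨h2, rw_succ n w v h3⟩

theorem rw_mono {n m : ℕ} (h : n ≤ m) {u v : V} (h1 : RW G n u v) : RW G m u v := by
  induction h with
  | refl => exact h1
  | step _ ih => exact rw_succ G _ u v ih

theorem rw_step {n : ℕ} {u w v : V} (h1 : G.Adj u w) (h2 : ¬ Plv G w) (h3 : RW G n w v) :
    RW G (n + 1) u v := Or.inr ⟨w, h1, Or.inr ⟨h2, h3⟩⟩

end RWs

section Graph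

variable {K V : Type} {k : ℕ} {C : KCode k K} {S : SimpleGraph V} {lab : V → Finset K}

theorem hjv (u : FullV k C lab) : ∀ κ c i j, fb u = Fb.mk κ c i j → 1 ≤ j :=
  fun _ _ _ _ h => (mk_ok h).2.1

theorem rw_lower (hP : ∀ v : FullV k C lab, Plv (full k C S lab) v ↔ fb v = Fb.root) :
    ∀ (n : ℕ) (u v : FullV k C lab), fb u ≠ Fb.root → fb v ≠ Fb.root →
    RW (full k C S lab) n u v → own v = own u ∧ (fb v).gid = (fb u).gid ∧
      pot (fb v) (fb u) ≤ n
  | 0, u, v, hu, hv, h => by
      have h' : u = v := h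
      subst h'
      exact ⟨rfl, rfl, (pot_self _).le⟩
  | n + 1, u, v, hu, hv, h => by
      rcases h with rfl | ⟨w, h1, h2⟩
      · exact ⟨rfl, rfl, by rw [pot_self]; omega⟩
      · have h3 : fb w ≠ Fb.root ∧ own v = own w ∧ (fb v).gid = (fb w).gid ∧
            pot (fb v) (fb w) ≤ n := by
          rcases h2 with rfl | ⟨h2, h3⟩
          · exact ⟨hv, rfl, rfl, by rw [pot_self]; omega⟩
          · rw [hP] at h2
            exact ⟨h2, rw_lower hP n w v h2 hv h3⟩
        obtain ⟨hw, h4, h5, h6⟩ := h3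
        rw [full_adj_of_ne hu] at h1
        refine ⟨h4.trans h1.1.symm, h5.trans (gid_adj h1.2 hu hw (hjv u)).symm, ?_⟩
        have := pot_adj h1.2 hv hu hw (hjv u) (hjv w)
        omega

/-- along a marking path, upwards -/
theorem rw_up (hP : ∀ v : FullV k C lab, Plv (full k C S lab) v ↔ fb v = Fb.root)
    {κ : K} {c : Bool} {i j' : ℕ} {v : FullV k C lab} (hv : fb v = Fb.mk κ c i j') :
    ∀ (t : ℕ) (u : FullV k C lab) (j : ℕ), own u = own v → fb u = Fb.mk κ c i j → j + t = j' →
      RW (full k C S lab) t u v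
  | 0, u, j, h1, h2, h3 => by
      have : u = v := ext' h1 (by rw [h2, hv, ← h3]; rfl)
      exact this
  | t + 1, u, j, h1, h2, h3 => by
      have hok := mk_ok hv
      have hok2 := mk_ok h2
      let w : FullV k C lab := mkv (own v) (Fb.mk κ c i (j + 1)) ⟨hok.1, by omega, by omega⟩
      have hw : fb w = Fb.mk κ c i (j + 1) := rfl
      refine rw_step _ (w := w) ?_ ?_ (rw_up hP hv t w (j + 1) rfl hw (by omega))
      · rw [full_adj_of_ne (by rw [h2]; simp), h2, adj_mk hok2.2.1]
        exact ⟨h1, Or.inl hw⟩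
      · rw [hP, hw]
        simp

theorem rw_a1_mk (hP : ∀ v : FullV k C lab, Plv (full k C S lab) v ↔ fb v = Fb.root)
    {κ : K} {c : Bool} {i j' : ℕ} {u v : FullV k C lab} (hv : fb v = Fb.mk κ c i j')
    (hu : fb u = Fb.a1 κ c) (h : own u = own v) : RW (full k C S lab) j' u v := by
  have hok := mk_ok hv
  let w : FullV k C lab := mkv (own v) (Fb.mk κ c i 1) ⟨hok.1, le_refl _, by omega⟩
  have hw : fb w = Fb.mk κ c i 1 := rfl
  have h1 : RW (full k C S lab) ((j' - 1) + 1) u v := by
    refine rw_step _ (w := w) ?_ ?_ (rw_up hP hv (j' - 1) w 1 rfl hw (by omega))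
    · rw [full_adj_of_ne (by rw [hu]; simp), hu, adj_a1]
      exact ⟨h, Or.inr (Or.inr ⟨i, 1, le_refl _, hw⟩)⟩
    · rw [hP, hw]
      simp
  rwa [show j' - 1 + 1 = j' by omega] at h1

theorem rw_mk_mk (hP : ∀ v : FullV k C lab, Plv (full k C S lab) v ↔ fb v = Fb.root)
    {κ : K} {c : Bool} {i i' j' : ℕ} {v : FullV k C lab} (hv : fb v = Fb.mk κ c i' j') :
    ∀ (j : ℕ) (u : FullV k C lab), fb u = Fb.mk κ c i j → own u = own v →
      RW (full k C S lab) (j + j') u v
  | 0, u, hu, _ => by
      have := (mk_ok hu).2.1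
      omega
  | 1, u, hu, h => by
      let w : FullV k C lab := mkv (own v) (Fb.a1 κ c) trivial
      have hw : fb w = Fb.a1 κ c := rfl
      rw [Nat.add_comm]
      refine rw_step _ (w := w) ?_ ?_ (rw_a1_mk hP hv hw rfl)
      · rw [full_adj_of_ne (by rw [hu]; simp), hu, adj_mk (le_refl _)]
        exact ⟨h, Or.inr (Or.inl ⟨rfl, hw⟩)⟩
      · rw [hP, hw]
        simp
  | j + 2, u, hu, h => by
      have hok := mk_ok hu
      let w : FullV k C lab := mkv (own v) (Fb.mk κ c i (j + 1)) ⟨hok.1, by omega, by omega⟩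
      have hw : fb w = Fb.mk κ c i (j + 1) := rfl
      have h1 : RW (full k C S lab) ((j + 1 + j') + 1) u v := by
        refine rw_step _ (w := w) ?_ ?_ (rw_mk_mk hP hv (j + 1) w hw rfl)
        · rw [full_adj_of_ne (by rw [hu]; simp), hu, adj_mk (by omega)]
          exact ⟨h, Or.inr (Or.inr ⟨by omega, hw⟩)⟩
        · rw [hP, hw]
          simp
      rwa [show j + 1 + j' + 1 = j + 2 + j' by omega] at h1

theorem pIs2 (hIs1 : StIs1) : StIs2 := by
  intro K V _ _ k hk hK C S lab u v n κ c hv
  have hP : ∀ v : FullV k C lab, Plv (full k C S lab) v ↔ fb v = Fb.root :=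
    fun v => (hIs1 k hk hK C S lab v).2.2.2.2
  constructor
  · intro hu
    have hu' : fb u ≠ Fb.root := by rw [hu]; simp
    constructor
    · intro h
      obtain ⟨h1, h2, h3⟩ := rw_lower hP n u v hu' hv h
      refine ⟨h1, by rw [h2, hu]; rfl, ?_⟩
      rw [hu] at h3
      have : pot (fb v) (Fb.a1 κ c) = gd (fb v) := by
        cases h4 : fb v with
        | root => exact absurd h4 hv
        | _ => simp [pot, gd]
      omega
    · rintro ⟨h1, h2, h3⟩
      let x2 : FullV k C lab := mkv (own v) (Fb.a2 κ c) trivial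
      let x3 : FullV k C lab := mkv (own v) (Fb.r κ c) trivial
      have hx2 : fb x2 = Fb.a2 κ c := rfl
      have hx3 : fb x3 = Fb.r κ c := rfl
      have p2 : ¬ Plv (full k C S lab) x2 := by rw [hP, hx2]; simp
      have p3 : ¬ Plv (full k C S lab) x3 := by rw [hP, hx3]; simp
      have e2 : (full k C S lab).Adj u x2 := by
        rw [full_adj_of_ne hu', hu, adj_a1]
        exact ⟨h1.symm, Or.inr (Or.inl hx2)⟩
      have e3 : (full k C S lab).Adj x2 x3 := by
        rw [full_adj_of_ne (by rw [hx2]; simp), hx2, adj_a2]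
        exact ⟨rfl, Or.inr hx3⟩
      cases h4 : fb v with
      | root => exact absurd h4 hv
      | a1 κ' c' =>
        rw [h4] at h2
        simp only [Fb.gid, Option.some.injEq, Prod.mk.injEq] at h2
        have : u = v := ext' h1.symm (by rw [hu, h4, h2.1, h2.2])
        rw [this]
        exact rw_refl _ _ _
      | a2 κ' c' =>
        rw [h4] at h2 h3
        simp only [Fb.gid, Option.some.injEq, Prod.mk.injEq] at h2
        have : x2 = v := ext' rfl (by rw [hx2, h4, h2.1, h2.2])
        refine rw_mono _ h3 ?_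
        rw [this] at e2
        exact Or.inr ⟨v, e2, Or.inl rfl⟩
      | r κ' c' =>
        rw [h4] at h2 h3
        simp only [Fb.gid, Option.some.injEq, Prod.mk.injEq] at h2
        have : x3 = v := ext' rfl (by rw [hx3, h4, h2.1, h2.2])
        refine rw_mono _ h3 ?_
        rw [this] at e3
        exact rw_step _ e2 p2 (Or.inr ⟨v, e3, Or.inl rfl⟩)
      | lf κ' c' i =>
        rw [h4] at h2 h3
        simp only [Fb.gid, Option.some.injEq, Prod.mk.injEq] at h2
        have e4 : (full k C S lab).Adj x3 v := by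
          rw [full_adj_of_ne (by rw [hx3]; simp), hx3, adj_r]
          exact ⟨rfl, Or.inr ⟨i, by rw [h4, h2.1, h2.2]⟩⟩
        refine rw_mono _ h3 ?_
        exact rw_step _ e2 p2 (rw_step _ e3 p3 (Or.inr ⟨v, e4, Or.inl rfl⟩))
      | mk κ' c' i j =>
        rw [h4] at h2 h3
        simp only [Fb.gid, Option.some.injEq, Prod.mk.injEq] at h2
        rw [h2.1, h2.2] at h4
        exact rw_mono _ h3 (rw_a1_mk hP h4 hu h1.symm)
  · intro i j i' hu hv' huv
    have hu' : fb u ≠ Fb.root := by rw [hu]; simp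
    have hok := mk_ok hu
    constructor
    · intro h
      obtain ⟨h1, h2, h3⟩ := rw_lower hP n u v hu' hv h
      rw [hu, hv'] at h3
      simp only [pot] at h3
      split_ifs at h3 with h4
      · left
        exact ⟨h4, by omega⟩
      · right
        exact ⟨h4, h3⟩
    · rintro (⟨rfl, h1⟩ | ⟨h0, h1⟩)
      · exact rw_mono _ h1 (rw_up hP hv' (i - j) u j huv hu (by omega))
      · exact rw_mono _ h1 (rw_mk_mk hP hv' j u hu huv)

end Graph

end Pool.Agent.Helper44.LD
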