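import Pool.Agent.Helper32.LD.StT2

/-! # LD project, tiling part, module B1: the simple axioms of the binary tiling -/

set_option autoImplicit false

namespace Pool.Agent.Helper44.LD

open Pool.Agent.Helper2.LD Pool.Agent.Helper32.LD

/-- raw tail and head of an edge -/
def hdRB1 (e : Bool × ℕ × ℕ) : ℕ × ℕ :=
  if e.1 = false then (e.2.1, e.2.2 + 1) else (e.2.1 + 1, 2 * e.2.2)

/-- raw source of an arc -/
def srRB1 (e : Bool × ℕ × ℕ) (b : Bool) : ℕ × ℕ := if b = true then hdRB1 e else e.2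

/-- raw target of an arc -/
def dsRB1 (e : Bool × ℕ × ℕ) (b : Bool) : ℕ × ℕ := if b = true then e.2 else hdRB1 e

theorem hd_B1 {m t : ℕ} (ε : BE m t) : ((bt m t).hd ε).1 = hdRB1 ε.1 := by
  unfold hdRB1
  by_cases h : ε.1.1 = false
  · simp [bt, h]
  · simp [bt, h]

theorem src_B1 {m t : ℕ} (A : BE m t × Bool) : ((bt m t).src A).1 = srRB1 A.1.1 A.2 := by
  unfold MC.src srRB1
  split_ifs with h
  · exact hd_B1 A.1
  · rfl

theorem dst_B1 {m t : ℕ} (A : BE m t × Bool) : ((bt m t).dst A).1 = dsRB1 A.1.1 A.2 := by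
  unfold MC.dst dsRB1
  split_ifs with h
  · rfl
  · exact hd_B1 A.1

/-- raw sources of the arcs of a face -/
def scB1 (n k : ℕ) (i : ZMod 5) : ℕ × ℕ :=
  if i.val = 0 then (n, k) else if i.val = 1 then (n, k + 1)
  else if i.val = 2 then (n + 1, 2 * k + 2) else if i.val = 3 then (n + 1, 2 * k + 1)
  else (n + 1, 2 * k)

theorem arcS_B1 {m t : ℕ} (f : BF m t) (i : ZMod 5) :
    ((bt m t).src ((bt m t).arc f i)).1 = scB1 f.1.1 f.1.2 i := by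
  rw [src_B1]
  fin_cases i <;> rfl

theorem arcD_B1 {m t : ℕ} (f : BF m t) (i : ZMod 5) :
    ((bt m t).dst ((bt m t).arc f i)).1 = scB1 f.1.1 f.1.2 (i + 1) := by
  rw [dst_B1]
  fin_cases i <;> rfl

theorem sc_cases_B1 (n k : ℕ) (i : ZMod 5) :
    ((scB1 n k i).1 = n ∧ k ≤ (scB1 n k i).2 ∧ (scB1 n k i).2 ≤ k + 1) ∨
    ((scB1 n k i).1 = n + 1 ∧ 2 * k ≤ (scB1 n k i).2 ∧ (scB1 n k i).2 ≤ 2 * k + 2) := by
  unfold scB1
  split_ifs <;> simp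

theorem sc_inj_B1 (n k : ℕ) (i j : ZMod 5) (h : scB1 n k i = scB1 n k j) : i = j := by
  apply ZMod.val_injective 5
  have hi := ZMod.val_lt i
  have hj := ZMod.val_lt j
  unfold scB1 at h
  split_ifs at h <;> simp only [Prod.mk.injEq] at h <;> omega

theorem ne_B1 {m t : ℕ} (ε : BE m t) : (bt m t).tl ε ≠ (bt m t).hd ε := by
  intro h
  have h1 := congrArg Subtype.val h
  rw [hd_B1] at h1
  have h2 : ((bt m t).tl ε).1 = ε.1.2 := rfl
  rw [h2] at h1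
  unfold hdRB1 at h1
  split_ifs at h1 with h3
  · have h4 := congrArg Prod.snd h1
    simp at h4
  · have h4 := congrArg Prod.fst h1
    simp at h4

theorem raw_B1 (e e' : Bool × ℕ × ℕ) (b b' : Bool) (h1 : srRB1 e b = srRB1 e' b')
    (h2 : dsRB1 e b = dsRB1 e' b') : e = e' ∧ b = b' := by
  obtain ⟨d, n, k⟩ := e
  obtain ⟨d', n', k'⟩ := e'
  cases d <;> cases d' <;> cases b <;> cases b' <;>
    simp [srRB1, dsRB1, hdRB1] at h1 h2 ⊢ <;> omega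

theorem simp_B1 {m t : ℕ} (A B : BE m t × Bool) (h1 : (bt m t).src A = (bt m t).src B)
    (h2 : (bt m t).dst A = (bt m t).dst B) : A = B := by
  have e1 := congrArg Subtype.val h1
  have e2 := congrArg Subtype.val h2
  rw [src_B1, src_B1] at e1
  rw [dst_B1, dst_B1] at e2
  obtain ⟨h3, h4⟩ := raw_B1 _ _ _ _ e1 e2
  exact Prod.ext (Subtype.ext h3) h4

theorem f3_B1 (n k n' k' : ℕ) (a b c a' b' c' : ℕ × ℕ) (hab : a ≠ b) (hac : a ≠ c)
    (hbc : b ≠ c) (ha : (a.1 = n ∧ k ≤ a.2 ∧ a.2 ≤ k + 1) ∨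
      (a.1 = n + 1 ∧ 2 * k ≤ a.2 ∧ a.2 ≤ 2 * k + 2))
    (hb : (b.1 = n ∧ k ≤ b.2 ∧ b.2 ≤ k + 1) ∨
      (b.1 = n + 1 ∧ 2 * k ≤ b.2 ∧ b.2 ≤ 2 * k + 2))
    (hc : (c.1 = n ∧ k ≤ c.2 ∧ c.2 ≤ k + 1) ∨
      (c.1 = n + 1 ∧ 2 * k ≤ c.2 ∧ c.2 ≤ 2 * k + 2))
    (ha' : (a'.1 = n' ∧ k' ≤ a'.2 ∧ a'.2 ≤ k' + 1) ∨
      (a'.1 = n' + 1 ∧ 2 * k' ≤ a'.2 ∧ a'.2 ≤ 2 * k' + 2))
    (hb' : (b'.1 = n' ∧ k' ≤ b'.2 ∧ b'.2 ≤ k' + 1) ∨
      (b'.1 = n' + 1 ∧ 2 * k' ≤ b'.2 ∧ b'.2 ≤ 2 * k' + 2))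
    (hc' : (c'.1 = n' ∧ k' ≤ c'.2 ∧ c'.2 ≤ k' + 1) ∨
      (c'.1 = n' + 1 ∧ 2 * k' ≤ c'.2 ∧ c'.2 ≤ 2 * k' + 2))
    (e1 : a = a') (e2 : b = b') (e3 : c = c') : n = n' ∧ k = k' := by
  subst e1 e2 e3
  obtain ⟨a1, a2⟩ := a
  obtain ⟨b1, b2⟩ := b
  obtain ⟨c1, c2⟩ := c
  simp only [ne_eq, Prod.mk.injEq] at *
  rcases ha with ha | ha <;> rcases hb with hb | hb <;> rcases hc with hc | hc <;>
  rcases ha' with ha' | ha' <;> rcases hb' with hb' | hb' <;> rcases hc' with hc' | hc' <;>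
  omega

theorem mk_B1 {m t : ℕ} {x : BX m t} {A : BE m t × Bool} (h : srRB1 A.1.1 A.2 = x.1) :
    (bt m t).src A = x := Subtype.ext ((src_B1 A).trans h)

theorem mkd_B1 {m t : ℕ} {x : BX m t} {A : BE m t × Bool} (h : dsRB1 A.1.1 A.2 = x.1) :
    (bt m t).dst A = x := Subtype.ext ((dst_B1 A).trans h)

theorem out_B1 {m t : ℕ} (hm : 1 ≤ m) (x : BX m t) : ∃ A, (bt m t).src A = x := by
  obtain ⟨⟨n, k⟩, hn, hk⟩ := x
  simp only at hn hk
  by_cases h : k < m * 2 ^ n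
  · exact ⟨(⟨(false, n, k), hn, hk, fun _ => h, fun h => by simp at h⟩, false), mk_B1 rfl⟩
  · have h1 : 1 ≤ m * 2 ^ n := Nat.one_le_iff_ne_zero.2 (by positivity)
    refine ⟨(⟨(false, n, k - 1), hn, (Nat.sub_le _ _).trans hk, fun _ => ?_,
      fun h => by simp at h⟩, true), mk_B1 ?_⟩
    · change k - 1 < m * 2 ^ n
      omega
    · simp only [srRB1, hdRB1, if_true, Prod.mk.injEq, true_and]
      omega

/-- the relation of being joined -/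
def RB1 (m t : ℕ) (u v : BX m t) : Prop := ∃ A, (bt m t).src A = u ∧ (bt m t).dst A = v

theorem symm_B1 {m t : ℕ} {u v : BX m t} (h : RB1 m t u v) : RB1 m t v u := by
  obtain ⟨A, h1, h2⟩ := h
  refine ⟨rev A, ?_, ?_⟩
  · rw [← h2]
    unfold MC.src MC.dst rev
    cases A.2 <;> simp
  · rw [← h1]
    unfold MC.src MC.dst rev
    cases A.2 <;> simp

theorem left_B1 {m t : ℕ} (n : ℕ) (hn : n ≤ t) : ∀ (k : ℕ) (hk : k ≤ m * 2 ^ n),
    Relation.ReflTransGen (RB1 m t) (⟨(n, 0), hn, Nat.zero_le _⟩ : BX m t) ⟨(n, k), hn, hk⟩ := by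
  intro k
  induction k with
  | zero => exact fun _ => Relation.ReflTransGen.refl
  | succ k ih =>
    intro hk
    refine (ih (by omega)).tail ?_
    refine ⟨(⟨(false, n, k), hn, (Nat.le_succ k).trans hk, fun _ => hk,
      fun h => by simp at h⟩, false), mk_B1 rfl, mkd_B1 rfl⟩

theorem down_B1 {m t : ℕ} : ∀ (n : ℕ) (hn : n ≤ t),
    Relation.ReflTransGen (RB1 m t) (⟨(0, 0), Nat.zero_le _, Nat.zero_le _⟩ : BX m t)
      ⟨(n, 0), hn, Nat.zero_le _⟩ := by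
  intro n
  induction n with
  | zero => exact fun _ => Relation.ReflTransGen.refl
  | succ n ih =>
    intro hn
    refine (ih (by omega)).tail ?_
    refine ⟨(⟨(true, n, 0), (Nat.le_succ n).trans hn, Nat.zero_le _, fun h => by simp at h,
      fun _ => hn⟩, false), mk_B1 rfl, mkd_B1 rfl⟩

theorem rsymm_B1 {m t : ℕ} {x y : BX m t} (h : Relation.ReflTransGen (RB1 m t) x y) :
    Relation.ReflTransGen (RB1 m t) y x := by
  induction h with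
  | refl => exact Relation.ReflTransGen.refl
  | tail _ h ih => exact Relation.ReflTransGen.head (symm_B1 h) ih

theorem con_B1 {m t : ℕ} (x y : BX m t) : Relation.ReflTransGen (RB1 m t) x y := by
  have key : ∀ x : BX m t, Relation.ReflTransGen (RB1 m t)
      (⟨(0, 0), Nat.zero_le _, Nat.zero_le _⟩ : BX m t) x := by
    rintro ⟨⟨n, k⟩, hn, hk⟩
    exact (down_B1 n hn).trans (left_B1 n hn k hk)
  exact (rsymm_B1 (key x)).trans (key y)

theorem cov_B1 {m t : ℕ} (hm : 1 ≤ m) (ht : 1 ≤ t) (ε : BE m t) :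
    ∃ (f : BF m t) (i : ZMod 5), ((bt m t).arc f i).1 = ε := by
  obtain ⟨⟨d, n, k⟩, hn, hk, h1, h2⟩ := ε
  simp only at hn hk h1 h2
  cases d with
  | false =>
    have hk' : k < m * 2 ^ n := h1 rfl
    by_cases hnt : n < t
    · exact ⟨⟨(n, k), hnt, hk'⟩, 0, rfl⟩
    · obtain ⟨n', rfl⟩ : ∃ n', n = n' + 1 := ⟨n - 1, by omega⟩
      have e : m * 2 ^ (n' + 1) = 2 * (m * 2 ^ n') := by ring
      rw [e] at hk'
      rcases Nat.even_or_odd' k with ⟨c, rfl | rfl⟩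
      · exact ⟨⟨(n', c), by simp only; omega, by simp only; omega⟩, 3, rfl⟩
      · exact ⟨⟨(n', c), by simp only; omega, by simp only; omega⟩, 2, rfl⟩
  | true =>
    have hnt : n < t := h2 rfl
    by_cases hk' : k < m * 2 ^ n
    · exact ⟨⟨(n, k), hnt, hk'⟩, 4, rfl⟩
    · have h3 : 1 ≤ m * 2 ^ n := Nat.one_le_iff_ne_zero.2 (by positivity)
      obtain ⟨k', rfl⟩ : ∃ k', k = k' + 1 := ⟨k - 1, by omega⟩
      exact ⟨⟨(n, k'), hnt, by simp only; omega⟩, 1, rfl⟩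

theorem tB1 : StB1 := by
  intro m t hm ht
  refine ⟨ne_B1, simp_B1, ?_, ?_, ?_, ?_, con_B1, out_B1 hm, ?_⟩
  · intro f i
    exact Subtype.ext ((arcD_B1 f i).trans (arcS_B1 f (i + 1)).symm)
  · intro f i j h
    have h1 := congrArg Subtype.val h
    rw [arcS_B1, arcS_B1] at h1
    exact sc_inj_B1 _ _ _ _ h1
  · intro f g i1 i2 i3 j1 j2 j3 h12 h13 h23 e1 e2 e3
    have a1 := congrArg Subtype.val e1
    have a2 := congrArg Subtype.val e2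
    have a3 := congrArg Subtype.val e3
    rw [arcS_B1, arcS_B1] at a1 a2 a3
    obtain ⟨h4, h5⟩ := f3_B1 f.1.1 f.1.2 g.1.1 g.1.2 _ _ _ _ _ _
      (fun h => h12 (sc_inj_B1 _ _ _ _ h)) (fun h => h13 (sc_inj_B1 _ _ _ _ h))
      (fun h => h23 (sc_inj_B1 _ _ _ _ h)) (sc_cases_B1 _ _ i1) (sc_cases_B1 _ _ i2)
      (sc_cases_B1 _ _ i3) (sc_cases_B1 _ _ j1) (sc_cases_B1 _ _ j2) (sc_cases_B1 _ _ j3)
      a1 a2 a3
    exact Subtype.ext (Prod.ext h4 h5)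
  · rintro ⟨ε, b⟩
    obtain ⟨f, i, h⟩ := cov_B1 hm ht ε
    refine ⟨f, i, ?_⟩
    rcases hb : ((bt m t).arc f i).2 with _ | _ <;> cases b
    · exact Or.inl (Prod.ext h hb)
    · exact Or.inr (Prod.ext h hb)
    · exact Or.inr (Prod.ext h hb)
    · exact Or.inl (Prod.ext h hb)
  · exact ⟨⟨(0, 0), Nat.zero_le _, Nat.zero_le _⟩⟩

end Pool.Agent.Helper44.LD
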