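import Pool.Agent.Helper44.LD.T_B1

/-! # LD project, tiling part, module B3: links in the binary tiling -/

set_option autoImplicit false

namespace Pool.Agent.Helper44.LD

open Pool.Agent.Helper2.LD Pool.Agent.Helper32.LD

/-- raw version of a property of arcs -/
def QB3 {m t : ℕ} (P : BE m t × Bool → Prop) (d : Bool) (n k : ℕ) (b : Bool) : Prop :=
  ∃ A : BE m t × Bool, A.1.1 = (d, n, k) ∧ A.2 = b ∧ P A

theorem Q_B3 {m t : ℕ} (P : BE m t × Bool → Prop) (A : BE m t × Bool) (d : Bool) (n k : ℕ)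
    (b : Bool) (h1 : A.1.1 = (d, n, k)) (h2 : A.2 = b) : P A ↔ QB3 P d n k b := by
  constructor
  · exact fun h => ⟨A, h1, h2, h⟩
  · rintro ⟨A', h3, h4, h5⟩
    have e : A' = A := Prod.ext (Subtype.ext (h3.trans h1.symm)) (h4.trans h2.symm)
    rwa [e] at h5

/-- the property at a centre of the link -/
def cB3 {m t : ℕ} (P : BE m t × Bool → Prop) (n k : ℕ) : Prop :=
  if n < t then QB3 P true n k false
  else if k % 2 = 0 then QB3 P true (n - 1) (k / 2) true else QB3 P false n k false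

theorem link_B3 {m t : ℕ} (hm : 1 ≤ m) (ht : 1 ≤ t) (v : BX m t) (P : BE m t × Bool → Prop)
    (h : ∀ f i, (bt m t).src ((bt m t).arc f (i + 1)) = v →
      (P ((bt m t).arc f (i + 1)) ↔ P (rev ((bt m t).arc f i))))
    (A : BE m t × Bool) (hA : (bt m t).src A = v) : P A ↔ cB3 P v.1.1 v.1.2 := by
  obtain ⟨⟨n, k⟩, hn, hk⟩ := v
  simp only at hn hk
  have R1 : ∀ (h1 : n < t) (h2 : k < m * 2 ^ n),
      (QB3 P false n k false ↔ QB3 P true n k false) := by
    intro h1 h2
    have h3 := h ⟨(n, k), h1, h2⟩ 4 (Subtype.ext (arcS_B1 _ _))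
    rw [Q_B3 P _ false n k false rfl rfl, Q_B3 P _ true n k false rfl rfl] at h3
    exact h3
  have R2 : ∀ k' (h1 : n < t) (h2 : k' < m * 2 ^ n), k = k' + 1 →
      (QB3 P true n k false ↔ QB3 P false n k' true) := by
    intro k' h1 h2 e
    subst e
    have h3 := h ⟨(n, k'), h1, h2⟩ 0 (Subtype.ext (arcS_B1 _ _))
    rw [Q_B3 P _ true n (k' + 1) false rfl rfl, Q_B3 P _ false n k' true rfl rfl] at h3
    exact h3
  have R3 : ∀ n' k' (h1 : n' < t) (h2 : k' < m * 2 ^ n'), n = n' + 1 → k = 2 * k' + 2 →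
      (QB3 P false n (2 * k' + 1) true ↔ QB3 P true n' (k' + 1) true) := by
    intro n' k' h1 h2 e e'
    subst e e'
    have h3 := h ⟨(n', k'), h1, h2⟩ 1 (Subtype.ext (arcS_B1 _ _))
    rw [Q_B3 P _ false (n' + 1) (2 * k' + 1) true rfl rfl,
      Q_B3 P _ true n' (k' + 1) true rfl rfl] at h3
    exact h3
  have R4 : ∀ n' k' (h1 : n' < t) (h2 : k' < m * 2 ^ n'), n = n' + 1 → k = 2 * k' + 1 →
      (QB3 P false n (2 * k') true ↔ QB3 P false n (2 * k' + 1) false) := by
    intro n' k' h1 h2 e e'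
    subst e e'
    have h3 := h ⟨(n', k'), h1, h2⟩ 2 (Subtype.ext (arcS_B1 _ _))
    rw [Q_B3 P _ false (n' + 1) (2 * k') true rfl rfl,
      Q_B3 P _ false (n' + 1) (2 * k' + 1) false rfl rfl] at h3
    exact h3
  have R5 : ∀ n' k' (h1 : n' < t) (h2 : k' < m * 2 ^ n'), n = n' + 1 → k = 2 * k' →
      (QB3 P true n' k' true ↔ QB3 P false n (2 * k') false) := by
    intro n' k' h1 h2 e e'
    subst e e'
    have h3 := h ⟨(n', k'), h1, h2⟩ 3 (Subtype.ext (arcS_B1 _ _))
    rw [Q_B3 P _ true n' k' true rfl rfl,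
      Q_B3 P _ false (n' + 1) (2 * k') false rfl rfl] at h3
    exact h3
  have hs := congrArg Subtype.val hA
  rw [src_B1] at hs
  obtain ⟨⟨⟨d, n1, k1⟩, hn1, hk1, h1, h2⟩, b⟩ := A
  simp only at hs hn1 hk1 h1 h2
  rw [Q_B3 P _ d n1 k1 b rfl rfl]
  simp only
  have hpos : ∀ j, 1 ≤ m * 2 ^ j := fun j => Nat.one_le_iff_ne_zero.2 (by positivity)
  cases d with
  | false =>
    have h1' := h1 rfl
    cases b with
    | false =>
      simp only [srRB1, Bool.false_eq_true, if_false, Prod.mk.injEq] at hs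
      obtain ⟨rfl, rfl⟩ := hs
      unfold cB3
      split_ifs with c1 c2
      · exact R1 c1 h1'
      · obtain ⟨n', rfl⟩ : ∃ n', n1 = n' + 1 := ⟨n1 - 1, by omega⟩
        obtain ⟨k', rfl⟩ : ∃ k', k1 = 2 * k' := ⟨k1 / 2, by omega⟩
        have e : m * 2 ^ (n' + 1) = 2 * (m * 2 ^ n') := by ring
        rw [e] at h1'
        have h3 := R5 n' k' (by omega) (by omega) rfl rfl
        have e1 : n' + 1 - 1 = n' := rfl
        have e2 : 2 * k' / 2 = k' := by omega
        rw [e1, e2]
        exact h3.symm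
      · exact Iff.rfl
    | true =>
      simp only [srRB1, hdRB1, if_true, Prod.mk.injEq] at hs
      obtain ⟨rfl, rfl⟩ := hs
      unfold cB3
      split_ifs with c1 c2
      · exact (R2 k1 c1 h1' rfl).symm
      · obtain ⟨n', rfl⟩ : ∃ n', n1 = n' + 1 := ⟨n1 - 1, by omega⟩
        obtain ⟨k', rfl⟩ : ∃ k', k1 = 2 * k' + 1 := ⟨k1 / 2, by omega⟩
        have e : m * 2 ^ (n' + 1) = 2 * (m * 2 ^ n') := by ring
        rw [e] at h1'
        have h3 := R3 n' k' (by omega) (by omega) rfl rfl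
        have e1 : n' + 1 - 1 = n' := rfl
        have e2 : (2 * k' + 1 + 1) / 2 = k' + 1 := by omega
        rw [e1, e2]
        exact h3
      · obtain ⟨n', rfl⟩ : ∃ n', n1 = n' + 1 := ⟨n1 - 1, by omega⟩
        obtain ⟨k', rfl⟩ : ∃ k', k1 = 2 * k' := ⟨k1 / 2, by omega⟩
        have e : m * 2 ^ (n' + 1) = 2 * (m * 2 ^ n') := by ring
        rw [e] at h1'
        exact R4 n' k' (by omega) (by omega) rfl rfl
  | true =>
    have h2' := h2 rfl
    cases b with
    | false =>
      simp only [srRB1, Bool.false_eq_true, if_false, Prod.mk.injEq] at hs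
      obtain ⟨rfl, rfl⟩ := hs
      unfold cB3
      rw [if_pos h2']
    | true =>
      simp only [srRB1, hdRB1, if_true, Bool.true_eq_false, if_false, Prod.mk.injEq] at hs
      obtain ⟨rfl, rfl⟩ := hs
      have e : m * 2 ^ (n1 + 1) = 2 * (m * 2 ^ n1) := by ring
      unfold cB3
      split_ifs with c1 c2
      · rcases Nat.eq_zero_or_pos k1 with h0 | h0
        · subst h0
          have p1 := hpos n1
          have h3 := R5 n1 0 h2' (by omega) rfl rfl
          have h4 := R1 c1 (by rw [e]; omega)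
          exact h3.trans h4
        · obtain ⟨k', rfl⟩ : ∃ k', k1 = k' + 1 := ⟨k1 - 1, by omega⟩
          have h3 := R3 n1 k' h2' (by omega) rfl (by ring)
          have h4 := R2 (2 * k' + 1) c1 (by rw [e]; omega) (by ring)
          exact h3.symm.trans h4.symm
      · have e1 : n1 + 1 - 1 = n1 := rfl
        have e2 : 2 * k1 / 2 = k1 := by omega
        rw [e1, e2]
      · omega

theorem tB3 : StB3 := by
  intro m t hm ht v P h A B hA hB hP
  exact (link_B3 hm ht v P h B hB).2 ((link_B3 hm ht v P h A hA).1 hP)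

end Pool.Agent.Helper44.LD
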