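import Pool.Agent.Helper44.LD.T_B1

/-! # LD project, tiling part, module L8: corners have different face labels -/

set_option autoImplicit false

namespace Pool.Agent.Helper44.LD

open Pool.Agent.Helper2.LD Pool.Agent.Helper32.LD

/-- coordinates of the tail of a point -/
def tNL8 {m t al : ℕ} : SV (BX m t) (BE m t) al → ℕ × ℕ
  | Sum.inl x => x.1
  | Sum.inr (ε, _) => ε.1.2

theorem tl_L8 {m t al : ℕ} (A : BE m t × Bool) (r : ℕ) (hr : r < al) :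
    tNL8 ((bt m t).pt al A r) = if r = 0 then ((bt m t).src A).1 else A.1.1.2 := by
  obtain ⟨ε, b⟩ := A
  cases b with
  | false =>
    simp only [MC.pt, MC.ptE, MC.src, Bool.false_eq_true, if_false]
    by_cases h : r = 0
    · subst h
      simp [tNL8]
    · rw [dif_pos ⟨Nat.pos_of_ne_zero h, hr⟩, if_neg h]
      rfl
  | true =>
    simp only [MC.pt, MC.ptE, MC.src, if_true]
    by_cases h : r = 0
    · subst h
      rw [dif_neg (by omega), if_neg (by omega)]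
      simp [tNL8]
    · rw [dif_pos ⟨by omega, by omega⟩, if_neg h]
      rfl

theorem tlc_L8 {m t : ℕ} (f : BF m t) (i : ZMod 5) :
    ((((bt m t).arc f i).1.1.2.1 = f.1.1 ∧ f.1.2 ≤ ((bt m t).arc f i).1.1.2.2 ∧
      ((bt m t).arc f i).1.1.2.2 ≤ f.1.2 + 1) ∨
    (((bt m t).arc f i).1.1.2.1 = f.1.1 + 1 ∧ 2 * f.1.2 ≤ ((bt m t).arc f i).1.1.2.2 ∧
      ((bt m t).arc f i).1.1.2.2 ≤ 2 * f.1.2 + 2)) := by
  fin_cases i
  · left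
    change f.1.1 = f.1.1 ∧ f.1.2 ≤ f.1.2 ∧ f.1.2 ≤ f.1.2 + 1
    omega
  · left
    change f.1.1 = f.1.1 ∧ f.1.2 ≤ f.1.2 + 1 ∧ f.1.2 + 1 ≤ f.1.2 + 1
    omega
  · right
    change f.1.1 + 1 = f.1.1 + 1 ∧ 2 * f.1.2 ≤ 2 * f.1.2 + 1 ∧ 2 * f.1.2 + 1 ≤ 2 * f.1.2 + 2
    omega
  · right
    change f.1.1 + 1 = f.1.1 + 1 ∧ 2 * f.1.2 ≤ 2 * f.1.2 ∧ 2 * f.1.2 ≤ 2 * f.1.2 + 2
    omega
  · left
    change f.1.1 = f.1.1 ∧ f.1.2 ≤ f.1.2 ∧ f.1.2 ≤ f.1.2 + 1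
    omega

theorem fp_L8 {m t al : ℕ} (hal : 1 ≤ al) (f : BF m t) (j : ℕ) :
    ((tNL8 ((bt m t).fpt al f j)).1 = f.1.1 ∧ f.1.2 ≤ (tNL8 ((bt m t).fpt al f j)).2 ∧
      (tNL8 ((bt m t).fpt al f j)).2 ≤ f.1.2 + 1) ∨
    ((tNL8 ((bt m t).fpt al f j)).1 = f.1.1 + 1 ∧ 2 * f.1.2 ≤ (tNL8 ((bt m t).fpt al f j)).2 ∧
      (tNL8 ((bt m t).fpt al f j)).2 ≤ 2 * f.1.2 + 2) := by
  unfold MC.fpt
  rw [tl_L8 _ _ (Nat.mod_lt _ hal)]
  split_ifs with h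
  · rw [arcS_B1]
    exact sc_cases_B1 _ _ _
  · exact tlc_L8 _ _

theorem ar_L8 (n k n' k' N K : ℕ)
    (h1 : (N = n ∧ k ≤ K ∧ K ≤ k + 1) ∨ (N = n + 1 ∧ 2 * k ≤ K ∧ K ≤ 2 * k + 2))
    (h2 : (N = n' ∧ k' ≤ K ∧ K ≤ k' + 1) ∨ (N = n' + 1 ∧ 2 * k' ≤ K ∧ K ≤ 2 * k' + 2))
    (h3 : n % 32 = n' % 32) (h4 : k % 2 ^ 20 = k' % 2 ^ 20) : n = n' ∧ k = k' := by
  norm_num at h4
  omega

theorem tL8 (hFI : StFI) (hX : ∀ m t, 1 ≤ m → 1 ≤ t → MCAx (bt m t)) : StL8 := by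
  intro I m t al inf hm ht hal q q' how hfl
  obtain ⟨f, s⟩ := q
  obtain ⟨f', s'⟩ := q'
  have hal1 : 1 ≤ al := by omega
  have h1 : (bt m t).fpt al f s.val = (bt m t).fpt al f' s'.val := how
  have h2 : bl inf f.1.1 f.1.2 = bl inf f'.1.1 f'.1.2 := hfl
  have h3 : f.1.1 % 32 = f'.1.1 % 32 := by
    have := congrArg (fun z : BL I => z.1.1) h2
    exact this
  have h4 : f.1.2 % 2 ^ 20 = f'.1.2 % 2 ^ 20 := by
    have := congrArg (fun z : BL I => z.2.1.1) h2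
    exact this
  have h5 := fp_L8 hal1 f s.val
  have h6 := fp_L8 hal1 f' s'.val
  rw [← h1] at h6
  obtain ⟨h7, h8⟩ := ar_L8 _ _ _ _ _ _ h5 h6 h3 h4
  have h9 : f = f' := Subtype.ext (Prod.ext h7 h8)
  subst h9
  have : NeZero (5 * al) := ⟨by omega⟩
  have h10 := (hFI (bt m t) al (hX m t hm ht) (by omega) f).2.2 s.val s'.val (ZMod.val_lt s)
    (ZMod.val_lt s') h1
  rw [ZMod.val_injective _ h10]

end Pool.Agent.Helper44.LD
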